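import Pool.Agent.U624.Conv.Fin

set_option autoImplicit false

/-! # MP_cbedb1_nt: divisibility of the self-convolution of `C(6k,3k) C(3k,k)`

Proof.  A Clausen type identity (both sides satisfy the same recurrence of order two) gives
`S_n = ∑_k C(6k,3k) C(3k,k) C(2k,k) C(k,n-k) (-432)^(n-k)`, and every summand is divisible by
`8 (2n-1) C(3n,n)`: compare the exponents of all primes by Legendre's formula. -/

/-- For every positive integer `n`, `8 (2n-1) C(3n,n)` divides
`∑_{j=0}^n C(6j,3j) C(3j,j) C(6(n-j),3(n-j)) C(3(n-j),n-j)`. -/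
theorem Pool.Agent.Results.MP_cbedb1_nt.Divisibility.result (n : ℕ) (hn : 0 < n) :
    8 * (2 * n - 1) * (3 * n).choose n ∣
      ∑ j ∈ Finset.range (n + 1), ((6 * j).choose (3 * j) * (3 * j).choose j) *
        ((6 * (n - j)).choose (3 * (n - j)) * (3 * (n - j)).choose (n - j)) :=
  Pool.Agent.U624.Conv.main n hn
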